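import Pool.Agent.Helper2.MS.Main
import Pool.Agent.Helper2.MS.Reduced

/-!
# Not every quotient stack is a moduli stack of polarized manifolds

Let `l` be a transcendental number and `Z` the union of the four lines `x y (x - y) (x - l y) = 0` in
the affine plane over `ℂ`: a reduced affine (so quasi-projective) scheme. Let `G` be the trivial
group. Then the quotient stack `[Z / G] = Z` is not isomorphic to the moduli stack of any class of
polarized manifolds.

`ModuliStack 𝒞` is the category of the families over schemes `S` of polarized manifolds in the class
`𝒞`, with its projection to the category of schemes over `ℂ` (`S` runs through the schemes which are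
locally of finite type over `ℂ`, so that the condition on the geometric fibres is a condition on the
fibres over the complex points of `S`; it is enough to show that the stacks are not isomorphic over
this category). The fibred category of `Z` is the category `SchemesOver Z` of schemes over `Z`.

The reason. Let `ξ = (X → Z, L)` be the universal family, and `D` a derivation of `ℂ` with
`D (l) = 1`. Let `Z_D` be the scheme `Z × Spec ℤ[ε]/(ε²)`, as a scheme over `ℂ` by means of
`c ↦ c + D (c) ε`. The pull-back of `ξ` along the projection `Z_D → Z` is a family over `Z_D` with the
same fibres, so it is an object of the moduli stack. It is therefore given by a morphism `Z_D → Z`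
over `ℂ`, which is the identity on `Z`. In other words the derivation `D` extends to the coordinate
ring of `Z`. But this is not the case, as `D` does not kill the cross-ratio `l` of the four lines.
-/

open Pool.Agent.Helper2.MS

namespace Pool.Agent.Results.MP_70d7ca_ag.NotEveryQuotientStack

/-- There are transcendental numbers `l`, and for each of them the union `Z` of the four lines
`x y (x - y) (x - l y) = 0`, a reduced affine scheme of finite type over `ℂ`, is not isomorphic (as a
stack, `Z = [Z / 1]`) to the moduli stack of a class of polarized manifolds. -/
theorem result : (∃ l : ℂ, Transcendental ℚ l) ∧ ∀ l : ℂ, Transcendental ℚ l →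
    IsReduced (CoordRing l) ∧ ∀ 𝒞 : PolClass, ¬ IsModuliStack 𝒞 (SpecOver (CoordRing l)) := by
  refine ⟨exists_transcendental, fun l hl => ?_⟩
  have h0 : l ≠ 0 := by
    rintro rfl
    exact hl isAlgebraic_zero
  have h1 : l ≠ 1 := by
    rintro rfl
    exact hl isAlgebraic_one
  refine ⟨isReduced_coordRing h0 h1, fun 𝒞 h => ?_⟩
  obtain ⟨τ, hτ, hl1⟩ := exists_tau hl
  obtain ⟨ψ, hψ, hψ'⟩ := exists_lift 𝒞 (CoordRing l) h τ hτ
  have h2 := no_lift h0 h1 τ ψ hψ (fun c => by rw [hψ', snd_twist])
  rw [hl1] at h2
  exact one_ne_zero h2

end Pool.Agent.Results.MP_70d7ca_ag.NotEveryQuotientStack
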